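import Mathlib

set_option autoImplicit false

/-!
# Latin bitrades both of whose mates need abelian groups of exponential order

Rows and columns `0, ..., k`, symbols `0, ..., k`:

* `W` has the cells `(0, 0, k)` and `(i+1, 0, i)`, `(0, i+1, i)`, `(i+1, i+1, i+1)` for `i < k`;
* `B` has the cells `(0, 0, 0)` and `(i+1, 0, i+1)`, `(0, i+1, i+1)`, `(i+1, i+1, i)` for `i < k`.

Every embedding of `W` in an abelian group maps the symbols, up to a translation, to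
`g, 2 g, 4 g, ..., 2 ^ k g = 0`, so `g` has order `2 ^ k`.  Both mates embed in the cyclic group of
order `2 ^ k`.
-/

namespace Pool.Agent.Results.MP_afce15_co.ExponentialGrowth

open Finset

/-- A partial latin square: a finite set of triples (row, column, symbol) such that any two
coordinates of a triple determine the third. (Rows, columns and symbols are named by natural
numbers.) -/
def IsPartialLatinSquare (P : Finset (ℕ × ℕ × ℕ)) : Prop :=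
  (∀ r c s s', (r, c, s) ∈ P → (r, c, s') ∈ P → s = s') ∧
  (∀ r c c' s, (r, c, s) ∈ P → (r, c', s) ∈ P → c = c') ∧
  (∀ r r' c s, (r, c, s) ∈ P → (r', c, s) ∈ P → r = r')

/-- `(W, B)` is a latin bitrade: disjoint nonempty partial latin squares with the same filled cells,
and with the same set of symbols in every row and in every column. -/
def IsBitrade (W B : Finset (ℕ × ℕ × ℕ)) : Prop :=
  IsPartialLatinSquare W ∧ IsPartialLatinSquare B ∧ W.Nonempty ∧ B.Nonempty ∧ Disjoint W B ∧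
  (∀ r c, (∃ s, (r, c, s) ∈ W) ↔ ∃ s, (r, c, s) ∈ B) ∧
  (∀ r s, (∃ c, (r, c, s) ∈ W) ↔ ∃ c, (r, c, s) ∈ B) ∧
  (∀ c s, (∃ r, (r, c, s) ∈ W) ↔ ∃ r, (r, c, s) ∈ B)

/-- `P` embeds in the abelian group `G`: there are maps from the rows, the columns and the symbols
to `G`, injective on the rows, the columns and the symbols which occur in `P`, with
`α r + β c = γ s` for every `(r, c, s) ∈ P`. -/
def Embeds (P : Finset (ℕ × ℕ × ℕ)) (G : Type) [AddCommGroup G] : Prop :=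
  ∃ α β γ : ℕ → G,
    Set.InjOn α {r | ∃ c s, (r, c, s) ∈ P} ∧
    Set.InjOn β {c | ∃ r s, (r, c, s) ∈ P} ∧
    Set.InjOn γ {s | ∃ r c, (r, c, s) ∈ P} ∧
    ∀ r c s, (r, c, s) ∈ P → α r + β c = γ s

/-- The orders of the finite abelian groups in which both `W` and `B` embed. -/
def orders (W B : Finset (ℕ × ℕ × ℕ)) : Set ℕ :=
  {n | ∃ (G : Type) (_ : AddCommGroup G), Finite G ∧ Nat.card G = n ∧ Embeds W G ∧ Embeds B G}

/-- `m(W, B)`, the least order of a finite abelian group in which both `W` and `B` embed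
(to be used when there is such a group). -/
noncomputable def m (W B : Finset (ℕ × ℕ × ℕ)) : ℕ := sInf (orders W B)

/-- the first mate -/
def Wk (k : ℕ) : Finset (ℕ × ℕ × ℕ) :=
  insert (0, 0, k)
    ((range k).biUnion fun i => {(i + 1, 0, i), (0, i + 1, i), (i + 1, i + 1, i + 1)})

/-- the second mate -/
def Bk (k : ℕ) : Finset (ℕ × ℕ × ℕ) :=
  insert (0, 0, 0)
    ((range k).biUnion fun i => {(i + 1, 0, i + 1), (0, i + 1, i + 1), (i + 1, i + 1, i)})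

lemma mem_Wk {k r c s : ℕ} : (r, c, s) ∈ Wk k ↔ (r = 0 ∧ c = 0 ∧ s = k) ∨
    ∃ i < k, (r = i + 1 ∧ c = 0 ∧ s = i) ∨ (r = 0 ∧ c = i + 1 ∧ s = i) ∨
      (r = i + 1 ∧ c = i + 1 ∧ s = i + 1) := by
  simp [Wk]

lemma mem_Bk {k r c s : ℕ} : (r, c, s) ∈ Bk k ↔ (r = 0 ∧ c = 0 ∧ s = 0) ∨
    ∃ i < k, (r = i + 1 ∧ c = 0 ∧ s = i + 1) ∨ (r = 0 ∧ c = i + 1 ∧ s = i + 1) ∨
      (r = i + 1 ∧ c = i + 1 ∧ s = i) := by
  simp [Bk]

lemma card_Wk (k : ℕ) : (Wk k).card = 3 * k + 1 := by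
  unfold Wk
  rw [card_insert_of_notMem, card_biUnion]
  · have : ∀ i ∈ range k,
        ({(i + 1, 0, i), (0, i + 1, i), (i + 1, i + 1, i + 1)} : Finset (ℕ × ℕ × ℕ)).card = 3 := by
      intro i _
      rw [card_eq_three]
      exact ⟨_, _, _, by simp, by simp, by simp, rfl⟩
    rw [sum_congr rfl this]
    simp [mul_comm]
  · intro i _ j _ hij
    simp only [Function.onFun]
    rw [Finset.disjoint_left]
    rintro ⟨r, c, s⟩ h1 h2
    simp only [mem_insert, mem_singleton, Prod.mk.injEq] at h1 h2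
    omega
  · simp

lemma pls_W (k : ℕ) : IsPartialLatinSquare (Wk k) := by
  refine ⟨?_, ?_, ?_⟩
  · intro r c s s' h1 h2
    rw [mem_Wk] at h1 h2
    rcases h1 with h1 | ⟨i, hi, h1⟩ <;> rcases h2 with h2 | ⟨j, hj, h2⟩ <;> omega
  · intro r c c' s h1 h2
    rw [mem_Wk] at h1 h2
    rcases h1 with h1 | ⟨i, hi, h1⟩ <;> rcases h2 with h2 | ⟨j, hj, h2⟩ <;> omega
  · intro r r' c s h1 h2
    rw [mem_Wk] at h1 h2
    rcases h1 with h1 | ⟨i, hi, h1⟩ <;> rcases h2 with h2 | ⟨j, hj, h2⟩ <;> omega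

lemma pls_B (k : ℕ) : IsPartialLatinSquare (Bk k) := by
  refine ⟨?_, ?_, ?_⟩
  · intro r c s s' h1 h2
    rw [mem_Bk] at h1 h2
    rcases h1 with h1 | ⟨i, hi, h1⟩ <;> rcases h2 with h2 | ⟨j, hj, h2⟩ <;> omega
  · intro r c c' s h1 h2
    rw [mem_Bk] at h1 h2
    rcases h1 with h1 | ⟨i, hi, h1⟩ <;> rcases h2 with h2 | ⟨j, hj, h2⟩ <;> omega
  · intro r r' c s h1 h2
    rw [mem_Bk] at h1 h2
    rcases h1 with h1 | ⟨i, hi, h1⟩ <;> rcases h2 with h2 | ⟨j, hj, h2⟩ <;> omega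

lemma bitrade (k : ℕ) (hk : 1 ≤ k) : IsBitrade (Wk k) (Bk k) := by
  refine ⟨pls_W k, pls_B k, ⟨(0, 0, k), mem_Wk.2 (Or.inl (by simp))⟩,
    ⟨(0, 0, 0), mem_Bk.2 (Or.inl (by simp))⟩, ?_, ?_, ?_, ?_⟩
  · rw [Finset.disjoint_left]
    rintro ⟨r, c, s⟩ h1 h2
    rw [mem_Wk] at h1
    rw [mem_Bk] at h2
    rcases h1 with h1 | ⟨i, hi, h1⟩ <;> rcases h2 with h2 | ⟨j, hj, h2⟩ <;> omega
  · intro r c
    simp only [mem_Wk, mem_Bk]
    constructor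
    · rintro ⟨s, h | ⟨i, hi, h | h | h⟩⟩
      · exact ⟨0, Or.inl ⟨h.1, h.2.1, rfl⟩⟩
      · exact ⟨i + 1, Or.inr ⟨i, hi, Or.inl ⟨h.1, h.2.1, rfl⟩⟩⟩
      · exact ⟨i + 1, Or.inr ⟨i, hi, Or.inr (Or.inl ⟨h.1, h.2.1, rfl⟩)⟩⟩
      · exact ⟨i, Or.inr ⟨i, hi, Or.inr (Or.inr ⟨h.1, h.2.1, rfl⟩)⟩⟩
    · rintro ⟨s, h | ⟨i, hi, h | h | h⟩⟩
      · exact ⟨k, Or.inl ⟨h.1, h.2.1, rfl⟩⟩
      · exact ⟨i, Or.inr ⟨i, hi, Or.inl ⟨h.1, h.2.1, rfl⟩⟩⟩
      · exact ⟨i, Or.inr ⟨i, hi, Or.inr (Or.inl ⟨h.1, h.2.1, rfl⟩)⟩⟩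
      · exact ⟨i + 1, Or.inr ⟨i, hi, Or.inr (Or.inr ⟨h.1, h.2.1, rfl⟩)⟩⟩
  · intro r s
    simp only [mem_Wk, mem_Bk]
    constructor
    · rintro ⟨c, h | ⟨i, hi, h | h | h⟩⟩
      · exact ⟨k, Or.inr ⟨k - 1, by omega, Or.inr (Or.inl ⟨h.1, by omega, by omega⟩)⟩⟩
      · exact ⟨i + 1, Or.inr ⟨i, hi, Or.inr (Or.inr ⟨h.1, rfl, h.2.2⟩)⟩⟩
      · rcases Nat.eq_zero_or_pos i with h0 | h0
        · exact ⟨0, Or.inl ⟨h.1, rfl, by omega⟩⟩
        · exact ⟨i, Or.inr ⟨i - 1, by omega, Or.inr (Or.inl ⟨h.1, by omega, by omega⟩)⟩⟩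
      · exact ⟨0, Or.inr ⟨i, hi, Or.inl ⟨h.1, rfl, h.2.2⟩⟩⟩
    · rintro ⟨c, h | ⟨i, hi, h | h | h⟩⟩
      · exact ⟨1, Or.inr ⟨0, by omega, Or.inr (Or.inl ⟨h.1, rfl, h.2.2⟩)⟩⟩
      · exact ⟨i + 1, Or.inr ⟨i, hi, Or.inr (Or.inr ⟨h.1, rfl, h.2.2⟩)⟩⟩
      · rcases Nat.lt_or_ge (i + 1) k with h0 | h0
        · exact ⟨i + 2, Or.inr ⟨i + 1, h0, Or.inr (Or.inl ⟨h.1, rfl, by omega⟩)⟩⟩
        · exact ⟨0, Or.inl ⟨h.1, rfl, by omega⟩⟩
      · exact ⟨0, Or.inr ⟨i, hi, Or.inl ⟨h.1, rfl, h.2.2⟩⟩⟩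
  · intro c s
    simp only [mem_Wk, mem_Bk]
    constructor
    · rintro ⟨r, h | ⟨i, hi, h | h | h⟩⟩
      · exact ⟨k, Or.inr ⟨k - 1, by omega, Or.inl ⟨by omega, h.2.1, by omega⟩⟩⟩
      · rcases Nat.eq_zero_or_pos i with h0 | h0
        · exact ⟨0, Or.inl ⟨rfl, h.2.1, by omega⟩⟩
        · exact ⟨i, Or.inr ⟨i - 1, by omega, Or.inl ⟨by omega, h.2.1, by omega⟩⟩⟩
      · exact ⟨i + 1, Or.inr ⟨i, hi, Or.inr (Or.inr ⟨rfl, h.2.1, h.2.2⟩)⟩⟩
      · exact ⟨0, Or.inr ⟨i, hi, Or.inr (Or.inl ⟨rfl, h.2.1, h.2.2⟩)⟩⟩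
    · rintro ⟨r, h | ⟨i, hi, h | h | h⟩⟩
      · exact ⟨1, Or.inr ⟨0, by omega, Or.inl ⟨rfl, h.2.1, h.2.2⟩⟩⟩
      · rcases Nat.lt_or_ge (i + 1) k with h0 | h0
        · exact ⟨i + 2, Or.inr ⟨i + 1, h0, Or.inl ⟨rfl, h.2.1, by omega⟩⟩⟩
        · exact ⟨0, Or.inl ⟨rfl, h.2.1, by omega⟩⟩
      · exact ⟨i + 1, Or.inr ⟨i, hi, Or.inr (Or.inr ⟨rfl, h.2.1, h.2.2⟩)⟩⟩
      · exact ⟨0, Or.inr ⟨i, hi, Or.inr (Or.inl ⟨rfl, h.2.1, h.2.2⟩)⟩⟩

lemma two_pow_inj {k i j : ℕ} (hi : i ≤ k) (hj : j ≤ k)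
    (h : (2 ^ i : ZMod (2 ^ k)) = 2 ^ j) : i = j := by
  wlog hij : i < j generalizing i j with H
  · rcases Nat.lt_or_ge j i with h' | h'
    · exact (H hj hi h.symm h').symm
    · omega
  exfalso
  have h1 : ((2 ^ i : ℕ) : ZMod (2 ^ k)) = ((2 ^ j : ℕ) : ZMod (2 ^ k)) := by
    push_cast
    exact h
  rw [ZMod.natCast_eq_natCast_iff'] at h1
  have h2 : 2 ^ i < 2 ^ k := Nat.pow_lt_pow_right (by norm_num) (by omega)
  rw [Nat.mod_eq_of_lt h2] at h1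
  rcases Nat.lt_or_ge j k with h3 | h3
  · rw [Nat.mod_eq_of_lt (Nat.pow_lt_pow_right (by norm_num) h3)] at h1
    exact absurd (Nat.pow_right_injective (le_refl 2) h1) (by omega)
  · have h4 : j = k := by omega
    rw [h4, Nat.mod_self] at h1
    exact absurd h1 (by positivity)

lemma pow_k (k : ℕ) : (2 ^ k : ZMod (2 ^ k)) = 0 := by
  have := ZMod.natCast_self (2 ^ k)
  push_cast at this
  exact this

lemma embeds_W (k : ℕ) : Embeds (Wk k) (ZMod (2 ^ k)) := by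
  refine ⟨fun r => if r = 0 then 2 ^ k else 2 ^ (r - 1),
    fun r => if r = 0 then 2 ^ k else 2 ^ (r - 1), fun s => 2 ^ s, ?_, ?_, ?_, ?_⟩
  · rintro r ⟨c, s, h⟩ r' ⟨c', s', h'⟩ he
    rw [mem_Wk] at h h'
    have h1 : r ≤ k := by
      rcases h with h | ⟨i, hi, h⟩ <;> omega
    have h2 : r' ≤ k := by
      rcases h' with h | ⟨i, hi, h⟩ <;> omega
    simp only at he
    split_ifs at he with e1 e2 e2
    · omega
    · have := two_pow_inj (le_refl k) (by omega) he; omega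
    · have := two_pow_inj (by omega) (le_refl k) he; omega
    · have := two_pow_inj (by omega) (by omega) he; omega
  · rintro r ⟨c, s, h⟩ r' ⟨c', s', h'⟩ he
    rw [mem_Wk] at h h'
    have h1 : r ≤ k := by
      rcases h with h | ⟨i, hi, h⟩ <;> omega
    have h2 : r' ≤ k := by
      rcases h' with h | ⟨i, hi, h⟩ <;> omega
    simp only at he
    split_ifs at he with e1 e2 e2
    · omega
    · have := two_pow_inj (le_refl k) (by omega) he; omega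
    · have := two_pow_inj (by omega) (le_refl k) he; omega
    · have := two_pow_inj (by omega) (by omega) he; omega
  · rintro s ⟨r, c, h⟩ s' ⟨r', c', h'⟩ he
    rw [mem_Wk] at h h'
    have h1 : s ≤ k := by
      rcases h with h | ⟨i, hi, h⟩ <;> omega
    have h2 : s' ≤ k := by
      rcases h' with h | ⟨i, hi, h⟩ <;> omega
    exact two_pow_inj h1 h2 he
  · intro r c s h
    rw [mem_Wk] at h
    have h0 := pow_k k
    rcases h with ⟨rfl, rfl, rfl⟩ | ⟨i, hi, ⟨rfl, rfl, rfl⟩ | ⟨rfl, rfl, rfl⟩ | ⟨rfl, rfl, rfl⟩⟩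
    · simp [h0]
    · simp [h0]
    · simp [h0]
    · simp only [Nat.add_eq_zero_iff, one_ne_zero, and_false, if_false, Nat.add_sub_cancel]
      rw [pow_succ]; ring

lemma embeds_B (k : ℕ) : Embeds (Bk k) (ZMod (2 ^ k)) := by
  refine ⟨fun r => 2 ^ (k - r), fun r => 2 ^ (k - r), fun s => 2 ^ (k - s), ?_, ?_, ?_, ?_⟩
  · rintro r ⟨c, s, h⟩ r' ⟨c', s', h'⟩ he
    rw [mem_Bk] at h h'
    have h1 : r ≤ k := by
      rcases h with h | ⟨i, hi, h⟩ <;> omega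
    have h2 : r' ≤ k := by
      rcases h' with h | ⟨i, hi, h⟩ <;> omega
    have := two_pow_inj (Nat.sub_le _ _) (Nat.sub_le _ _) he
    omega
  · rintro r ⟨c, s, h⟩ r' ⟨c', s', h'⟩ he
    rw [mem_Bk] at h h'
    have h1 : r ≤ k := by
      rcases h with h | ⟨i, hi, h⟩ <;> omega
    have h2 : r' ≤ k := by
      rcases h' with h | ⟨i, hi, h⟩ <;> omega
    have := two_pow_inj (Nat.sub_le _ _) (Nat.sub_le _ _) he
    omega
  · rintro s ⟨r, c, h⟩ s' ⟨r', c', h'⟩ he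
    rw [mem_Bk] at h h'
    have h1 : s ≤ k := by
      rcases h with h | ⟨i, hi, h⟩ <;> omega
    have h2 : s' ≤ k := by
      rcases h' with h | ⟨i, hi, h⟩ <;> omega
    have := two_pow_inj (Nat.sub_le _ _) (Nat.sub_le _ _) he
    omega
  · intro r c s h
    rw [mem_Bk] at h
    have h0 := pow_k k
    rcases h with ⟨rfl, rfl, rfl⟩ | ⟨i, hi, ⟨rfl, rfl, rfl⟩ | ⟨rfl, rfl, rfl⟩ | ⟨rfl, rfl, rfl⟩⟩
    · simp [h0]
    · simp [h0]
    · simp [h0]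
    · have e : k - s = (k - (s + 1)) + 1 := by omega
      simp only
      rw [e, pow_succ]; ring

/-- any finite abelian group in which `Wk k` embeds has an order divisible by `2 ^ k` -/
lemma dvd_card (k : ℕ) (hk : 1 ≤ k) (G : Type) [AddCommGroup G] (h : Embeds (Wk k) G) :
    2 ^ k ∣ Nat.card G := by
  obtain ⟨α, β, γ, -, -, hγ, he⟩ := h
  have e0 : α 0 + β 0 = γ k := he _ _ _ (mem_Wk.2 (Or.inl ⟨rfl, rfl, rfl⟩))
  have e1 : ∀ i < k, α (i + 1) + β 0 = γ i := fun i hi =>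
    he _ _ _ (mem_Wk.2 (Or.inr ⟨i, hi, Or.inl ⟨rfl, rfl, rfl⟩⟩))
  have e2 : ∀ i < k, α 0 + β (i + 1) = γ i := fun i hi =>
    he _ _ _ (mem_Wk.2 (Or.inr ⟨i, hi, Or.inr (Or.inl ⟨rfl, rfl, rfl⟩)⟩))
  have e3 : ∀ i < k, α (i + 1) + β (i + 1) = γ (i + 1) := fun i hi =>
    he _ _ _ (mem_Wk.2 (Or.inr ⟨i, hi, Or.inr (Or.inr ⟨rfl, rfl, rfl⟩)⟩))
  obtain ⟨g, hg⟩ : ∃ g, g = γ 0 - γ k := ⟨_, rfl⟩
  have step : ∀ i ≤ k, γ i - γ k = (2 ^ i : ℕ) • g := by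
    intro i
    induction i with
    | zero => intro _; simp [hg]
    | succ i ih =>
      intro hi
      have h1 := ih (by omega)
      have h2 : γ (i + 1) - γ k = (γ i - γ k) + (γ i - γ k) := by
        rw [← e3 i (by omega), ← e0]
        have h3 := e1 i (by omega)
        have h4 := e2 i (by omega)
        have h5 : α (i + 1) = γ i - β 0 := by rw [← h3]; abel
        have h6 : β (i + 1) = γ i - α 0 := by rw [← h4]; abel
        rw [h5, h6]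
        abel
      rw [h2, h1, ← add_nsmul, pow_succ, mul_two]
  have hk0 : (2 ^ k : ℕ) • g = 0 := by rw [← step k le_rfl, sub_self]
  have hk1 : ¬ (2 ^ (k - 1) : ℕ) • g = 0 := by
    rw [← step (k - 1) (by omega), sub_eq_zero]
    intro hc
    have := hγ ⟨k, 0, mem_Wk.2 (Or.inr ⟨k - 1, by omega, Or.inl ⟨by omega, rfl, rfl⟩⟩)⟩
      ⟨0, 0, mem_Wk.2 (Or.inl ⟨rfl, rfl, rfl⟩)⟩ hc
    omega
  have hord : addOrderOf g = 2 ^ (k - 1 + 1) := by
    refine addOrderOf_eq_prime_pow hk1 ?_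
    rw [Nat.sub_add_cancel hk]
    exact hk0
  rw [Nat.sub_add_cancel hk] at hord
  rw [← hord]
  exact addOrderOf_dvd_natCard g

lemma isLeast (k : ℕ) (hk : 1 ≤ k) : IsLeast (orders (Wk k) (Bk k)) (2 ^ k) := by
  constructor
  · have : NeZero (2 ^ k) := ⟨by positivity⟩
    exact ⟨ZMod (2 ^ k), inferInstance, inferInstance, Nat.card_zmod _, embeds_W k, embeds_B k⟩
  · rintro n ⟨G, _, hG, rfl, hW, -⟩
    exact Nat.le_of_dvd Nat.card_pos (dvd_card k hk G hW)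

/-- There are latin bitrades `(W_n, B_n)` of size `3 n + 4` such that both mates embed in a finite
abelian group and the least order of such a group is exactly `2 ^ (n + 1)`. Hence there is a constant
`c > 1` with `m(W_n, B_n) ≥ c ^ |W_n|` for all `n`, with `|W_n| → ∞`. -/
theorem result : ∃ c : ℝ, 1 < c ∧ ∃ W B : ℕ → Finset (ℕ × ℕ × ℕ),
    (∀ n, IsBitrade (W n) (B n)) ∧
    Filter.Tendsto (fun n => (W n).card) Filter.atTop Filter.atTop ∧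
    (∀ n, (orders (W n) (B n)).Nonempty) ∧
    (∀ n, c ^ (W n).card ≤ (m (W n) (B n) : ℝ)) ∧
    (∀ n, (W n).card = 3 * n + 4 ∧ m (W n) (B n) = 2 ^ (n + 1)) := by
  have hc : (1 : ℝ) < 2 ^ ((1 : ℝ) / 4) := Real.one_lt_rpow (by norm_num) (by norm_num)
  have hm : ∀ n, m (Wk (n + 1)) (Bk (n + 1)) = 2 ^ (n + 1) := fun n =>
    (isLeast (n + 1) (by omega)).csInf_eq
  have hcard : ∀ n, (Wk (n + 1)).card = 3 * n + 4 := fun n => by rw [card_Wk]; ring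
  refine ⟨2 ^ ((1 : ℝ) / 4), hc, fun n => Wk (n + 1), fun n => Bk (n + 1), fun n =>
    bitrade _ (by omega), ?_, fun n => ⟨_, (isLeast (n + 1) (by omega)).1⟩, ?_,
    fun n => ⟨hcard n, hm n⟩⟩
  · simp only [hcard]
    exact Filter.tendsto_atTop_mono (fun n => by show n ≤ 3 * n + 4; omega) Filter.tendsto_id
  · intro n
    simp only [hcard, hm]
    push_cast
    calc ((2 : ℝ) ^ ((1 : ℝ) / 4)) ^ (3 * n + 4) ≤ ((2 : ℝ) ^ ((1 : ℝ) / 4)) ^ (4 * (n + 1)) :=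
          pow_le_pow_right₀ hc.le (by omega)
      _ = (((2 : ℝ) ^ ((1 : ℝ) / 4)) ^ 4) ^ (n + 1) := by rw [pow_mul]
      _ = 2 ^ (n + 1) := by
        congr 1
        rw [← Real.rpow_natCast, ← Real.rpow_mul (by norm_num)]
        norm_num

end Pool.Agent.Results.MP_afce15_co.ExponentialGrowth
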